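import Pool.Agent.Y223.G.Stm

/-!
# Project G: invariants of a weighted blowup
-/

set_option autoImplicit false

namespace Pool.Agent.Y929.G

open Pool.Agent.Y223.G

section abs

/-- Integrality over the invariants. -/
theorem int_inv {A B : Type} [CommRing A] [CommRing B] (σ : B →+* B) (n : ℕ) (hn : 0 < n)
    (hσ : ∀ b, σ^[n] b = b) (j : A →+* B) (hj : ∀ b, σ b = b → ∃ a, j a = b) :
    j.IsIntegral := by
  intro b
  obtain ⟨P, hPd⟩ : ∃ P : Polynomial B,
      P = ∏ i ∈ Finset.range n, (Polynomial.X - Polynomial.C (σ^[i] b)) := ⟨_, rfl⟩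
  have hP : P.Monic := by
    rw [hPd]
    exact Polynomial.monic_prod_of_monic _ _ fun g _ => Polynomial.monic_X_sub_C _
  have hmap : P.map σ = P := by
    have h1 : P.map σ = ∏ i ∈ Finset.range n, (Polynomial.X - Polynomial.C (σ^[i + 1] b)) := by
      simp only [hPd, Polynomial.map_prod, Polynomial.map_sub, Polynomial.map_X, Polynomial.map_C]
      refine Finset.prod_congr rfl fun i _ => ?_
      rw [Function.iterate_succ_apply']
    obtain ⟨m, rfl⟩ : ∃ m, n = m + 1 := ⟨n - 1, by omega⟩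
    rw [h1, Finset.prod_range_succ, hσ, hPd, Finset.prod_range_succ']
    rfl
  have hcoeff : ∀ i, ∃ a, j a = P.coeff i := by
    intro i
    apply hj
    have h2 := congrArg (fun p => Polynomial.coeff p i) hmap
    simp only [Polynomial.coeff_map] at h2
    exact h2
  have hlift : P ∈ Polynomial.lifts j := by
    rw [Polynomial.lifts_iff_coeff_lifts]
    intro i
    exact hcoeff i
  obtain ⟨q, hq, -, hqm⟩ := Polynomial.lifts_and_natDegree_eq_and_monic hlift hP
  refine ⟨q, hqm, ?_⟩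
  rw [Polynomial.eval₂_eq_eval_map, hq, hPd, Polynomial.eval_prod]
  apply Finset.prod_eq_zero (Finset.mem_range.2 hn)
  simp

/-- Artin-Tate. -/
theorem ft_inv {k A B : Type} [CommRing k] [IsNoetherianRing k] [CommRing A] [CommRing B]
    [Algebra k A] [Algebra k B] (j : A →ₐ[k] B) (hinj : Function.Injective j)
    (hint : j.toRingHom.IsIntegral) (hft : Algebra.FiniteType k B) : Algebra.FiniteType k A := by
  let _ : Algebra A B := j.toRingHom.toAlgebra
  have _ : IsScalarTower k A B := IsScalarTower.of_algebraMap_eq fun r => (j.commutes r).symm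
  have h1 : Algebra.IsIntegral A B := ⟨fun b => hint b⟩
  have h2 : Algebra.FiniteType A B := Algebra.FiniteType.of_restrictScalars_finiteType k A B
  have h3 : Module.Finite A B := Algebra.IsIntegral.finite
  refine ⟨?_⟩
  refine fg_of_fg_of_fg k A B ?_ h3.1 ?_
  · exact hft.1
  · exact hinj

end abs

section maps

variable {k K K' : Type} [CommRing k] [Field K] [Algebra k K] [Field K'] [Algebra k K']
  (ι : K' →ₐ[k] K) (τ : K ≃ₐ[k] K)

/-- The map of the Laurent polynomials. -/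
noncomputable def Ph : LP K' →ₐ[k] LP K := AddMonoidAlgebra.mapAlgHom (R := k) ℤ ι

lemma Ph_coeff (f : LP K') (d : ℤ) : (Ph ι f).coeff d = ι (f.coeff d) :=
  AddMonoidAlgebra.coeff_mapAlgHom _ _ _

lemma Ph_hm (d : ℤ) (a : K') : Ph ι (hm d a) = hm d (ι a) :=
  AddMonoidAlgebra.mapAlgHom_single _ _ _

lemma Ph_inj : Function.Injective (Ph ι) := by
  intro f g h
  apply AddMonoidAlgebra.coeff_injective
  ext d
  have h1 := congrArg (fun z => z.coeff d) h
  simp only [Ph_coeff] at h1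
  exact ι.injective h1

lemma mem_res {R : Subalgebra k (LP K)} {f : LP K'} : f ∈ res ι R ↔ Ph ι f ∈ R := Iff.rfl

lemma tl_coeff (f : LP K) (d : ℤ) : (tl τ f).coeff d = τ (f.coeff d) :=
  AddMonoidAlgebra.coeff_mapAlgHom _ _ _

lemma tl_hm (d : ℤ) (a : K) : tl τ (hm d a) = hm d (τ a) :=
  AddMonoidAlgebra.mapAlgHom_single _ _ _

lemma tl_fix (hι : ∀ x, τ x = x ↔ ∃ y, ι y = x) (f : LP K) :
    tl τ f = f ↔ ∃ g, Ph ι g = f := by
  constructor
  · intro h
    have h1 : ∀ d, ∃ y, ι y = f.coeff d := by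
      intro d
      rw [← hι, ← tl_coeff, h]
    choose y hy using h1
    refine ⟨∑ d ∈ f.coeff.support, hm d (y d), ?_⟩
    rw [map_sum]
    conv_rhs => rw [eq_sum_hm f]
    refine Finset.sum_congr rfl fun d _ => ?_
    rw [Ph_hm, hy]
  · rintro ⟨g, rfl⟩
    apply AddMonoidAlgebra.coeff_injective
    ext d
    rw [tl_coeff, Ph_coeff]
    exact (hι _).2 ⟨_, rfl⟩

lemma tl_iter (n : ℕ) (f : LP K) (d : ℤ) : ((tl τ)^[n] f).coeff d = τ^[n] (f.coeff d) := by
  induction n with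
  | zero => rfl
  | succ n ih => rw [Function.iterate_succ_apply', Function.iterate_succ_apply', tl_coeff, ih]

lemma tl_iter_hm (n : ℕ) (d : ℤ) (a : K) : (tl τ)^[n] (hm d a) = hm d (τ^[n] a) := by
  induction n with
  | zero => rfl
  | succ n ih => rw [Function.iterate_succ_apply', Function.iterate_succ_apply', ih, tl_hm]

lemma tl_per {p : ℕ} (hτ : ∀ x, τ^[p] x = x) (f : LP K) : (tl τ)^[p] f = f := by
  apply AddMonoidAlgebra.coeff_injective
  ext d
  rw [tl_iter, hτ]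

end maps

section stp

variable {k K K' : Type} [CommRing k] [Field K] [Algebra k K] [Field K'] [Algebra k K']
  (ι : K' →ₐ[k] K) (τ : K ≃ₐ[k] K)

/-- restriction of the automorphism to a stable subalgebra -/
noncomputable def rT (B : Subalgebra k (LP K)) (hB : ∀ f ∈ B, tl τ f ∈ B) : B →+* B where
  toFun f := ⟨tl τ f, hB _ f.2⟩
  map_one' := Subtype.ext (map_one (tl τ))
  map_mul' _ _ := Subtype.ext (map_mul (tl τ) _ _)
  map_zero' := Subtype.ext (map_zero (tl τ))
  map_add' _ _ := Subtype.ext (map_add (tl τ) _ _)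

lemma rT_coe (B : Subalgebra k (LP K)) (hB : ∀ f ∈ B, tl τ f ∈ B) (f : B) :
    ((rT τ B hB f : B) : LP K) = tl τ f := rfl

lemma rT_iter (B : Subalgebra k (LP K)) (hB : ∀ f ∈ B, tl τ f ∈ B) (n : ℕ) (f : B) :
    (((rT τ B hB)^[n] f : B) : LP K) = (tl τ)^[n] f := by
  induction n with
  | zero => rfl
  | succ n ih => rw [Function.iterate_succ_apply', Function.iterate_succ_apply', rT_coe, ih]

lemma rT_per (B : Subalgebra k (LP K)) (hB : ∀ f ∈ B, tl τ f ∈ B) {p : ℕ}
    (hτ : ∀ x, τ^[p] x = x) (f : B) : (rT τ B hB)^[p] f = f := by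
  apply Subtype.ext
  rw [rT_iter, tl_per τ hτ]

lemma rT_bij (B : Subalgebra k (LP K)) (hB : ∀ f ∈ B, tl τ f ∈ B) {p : ℕ} (hp : 0 < p)
    (hτ : ∀ x, τ^[p] x = x) : Function.Bijective (rT τ B hB) := by
  constructor
  · intro f g h
    have h1 := congrArg (fun z : B => (z : LP K)) h
    simp only [rT_coe] at h1
    exact Subtype.ext ((tl τ).injective h1)
  · intro f
    obtain ⟨m, rfl⟩ : ∃ m, p = m + 1 := ⟨p - 1, by omega⟩
    refine ⟨(rT τ B hB)^[m] f, ?_⟩
    rw [← Function.iterate_succ_apply' (rT τ B hB) m f]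
    exact rT_per τ B hB hτ f

/-- restriction of the map of Laurent polynomials -/
noncomputable def rP (A : Subalgebra k (LP K')) (B : Subalgebra k (LP K))
    (hAB : ∀ f ∈ A, Ph ι f ∈ B) : A →ₐ[k] B := ((Ph ι).comp A.val).codRestrict B fun f => hAB _ f.2

lemma rP_coe (A : Subalgebra k (LP K')) (B : Subalgebra k (LP K))
    (hAB : ∀ f ∈ A, Ph ι f ∈ B) (f : A) : ((rP ι A B hAB f : B) : LP K) = Ph ι f := rfl

lemma rP_inj (A : Subalgebra k (LP K')) (B : Subalgebra k (LP K))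
    (hAB : ∀ f ∈ A, Ph ι f ∈ B) : Function.Injective (rP ι A B hAB) := by
  intro f g h
  have h1 := congrArg (fun z : B => (z : LP K)) h
  simp only [rP_coe] at h1
  exact Subtype.ext (Ph_inj ι h1)

variable {ι τ}

lemma fix_iff (hι : ∀ x, τ x = x ↔ ∃ y, ι y = x) (A : Subalgebra k (LP K'))
    (B : Subalgebra k (LP K)) (hAB : ∀ f, f ∈ A ↔ Ph ι f ∈ B) (hB : ∀ f ∈ B, tl τ f ∈ B) (b : B) :
    rT τ B hB b = b ↔ ∃ a, rP ι A B (fun f h => (hAB f).1 h) a = b := by
  constructor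
  · intro h
    have h1 : tl τ (b : LP K) = b := congrArg (fun z : B => (z : LP K)) h
    obtain ⟨g, hg⟩ := (tl_fix ι τ hι _).1 h1
    have hgA : g ∈ A := (hAB g).2 (by rw [hg]; exact b.2)
    exact ⟨⟨g, hgA⟩, Subtype.ext hg⟩
  · rintro ⟨a, rfl⟩
    apply Subtype.ext
    rw [rT_coe]
    exact (tl_fix ι τ hι _).2 ⟨_, rfl⟩

theorem main_rg [IsNoetherianRing k] (hD : S_DESC) {p : ℕ} (hp : p.Prime)
    (hτ : ∀ x, τ^[p] x = x) (hι : ∀ x, τ x = x ↔ ∃ y, ι y = x) (R : Subalgebra k (LP K))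
    (hR : Ch R) (hst : ∀ f ∈ R, tl τ f ∈ R) (hft : Algebra.FiniteType k (res ι R))
    (hQ : ∀ Q : Ideal R, Q.IsPrime →
      (∃ (e : ℕ) (η : K) (he : hm e η ∈ R), 0 < e ∧ (⟨hm e η, he⟩ : R) ∉ Q) →
      ∃ b ∈ R, ∀ c ∈ R, ∃ (s : LP K) (hs : s ∈ R), (⟨s, hs⟩ : R) ∉ Q ∧
        ∃ u ∈ R, s * (tl τ c - c) = u * (tl τ b - b))
    (e : ℕ) (η' : K') (he : hm e η' ∈ res ι R) (he0 : 0 < e) (hη : η' ≠ 0) :
    IsRegularRing (loc (res ι R) (hm e η') he) := by
  obtain ⟨η, hηd⟩ : ∃ η, η = ι η' := ⟨_, rfl⟩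
  have hη0 : η ≠ 0 := by
    rw [hηd]
    exact (map_ne_zero ι).2 hη
  have heR : hm e η ∈ R := by
    rw [hηd, ← Ph_hm]
    exact he
  have hτη : τ η = η := (hι η).2 ⟨η', hηd.symm⟩
  have hreg : IsRegularRing (loc R (hm e η) heR) := hR.rg e η heR he0 hη0
  have hAB : ∀ f, f ∈ loc (res ι R) (hm e η') he ↔ Ph ι f ∈ loc R (hm e η) heR := by
    intro f
    rw [mem_loc, mem_loc]
    refine exists_congr fun n => ?_
    rw [mem_res, map_mul, map_pow, Ph_hm, ← hηd]
  have hBst : ∀ f ∈ loc R (hm e η) heR, tl τ f ∈ loc R (hm e η) heR := by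
    rintro f ⟨n, hn⟩
    refine ⟨n, ?_⟩
    have h1 := hst _ hn
    rw [map_mul, map_pow, tl_hm, hτη] at h1
    exact h1
  obtain ⟨B, hBd⟩ : ∃ B, B = loc R (hm e η) heR := ⟨_, rfl⟩
  obtain ⟨A, hAd⟩ : ∃ A, A = loc (res ι R) (hm e η') he := ⟨_, rfl⟩
  have hAft : Algebra.FiniteType k A := by
    rw [hAd]
    exact ft_loc hft he (isUnit_hm hη)
  have hRB : R ≤ B := by
    rw [hBd]
    exact le_loc R _ heR
  have hinvB : hm (-(e : ℤ)) η⁻¹ ∈ B := by
    rw [hBd]
    refine inv_mem_loc R _ _ heR ?_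
    rw [hm_mul, add_neg_cancel, mul_inv_cancel₀ hη0, hm_one]
  have hBm : ∀ f ∈ B, ∃ n : ℕ, hm e η ^ n * f ∈ R := by
    intro f hf
    rw [hBd] at hf
    exact hf
  rw [← hAd]
  rw [← hAd, ← hBd] at hAB
  rw [← hBd] at hBst hreg
  clear hAd hBd
  have hAn : IsNoetherianRing A := Algebra.FiniteType.isNoetherianRing k A
  have hfix := fix_iff hι A B hAB hBst
  obtain ⟨j, hj⟩ : ∃ j, j = rP ι A B (fun f h => (hAB f).1 h) := ⟨_, rfl⟩
  rw [← hj] at hfix
  have hjinj : Function.Injective j := by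
    rw [hj]
    exact rP_inj ι A B _
  by_cases htr : ∃ x, rT τ B hBst x ≠ x
  · refine hD B p hp (RingEquiv.ofBijective (rT τ B hBst) (rT_bij τ B hBst hp.pos hτ)) ?_ htr A
      j.toRingHom hjinj hfix ?_
    · intro x
      exact rT_per τ B hBst hτ x
    · intro Q hQp
      have hunit : ∀ n : ℕ, (⟨hm e η, hRB heR⟩ : B) ^ n ∉ Q := by
        intro n hn
        have h1 := hQp.mem_of_pow_mem n hn
        have h2 : (⟨hm (-(e : ℤ)) η⁻¹, hinvB⟩ : B) * ⟨hm e η, hRB heR⟩ = 1 := by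
          apply Subtype.ext
          change hm (-(e : ℤ)) η⁻¹ * hm e η = 1
          rw [hm_mul, neg_add_cancel, inv_mul_cancel₀ hη0, hm_one]
        have h3 := Q.mul_mem_left (⟨hm (-(e : ℤ)) η⁻¹, hinvB⟩ : B) h1
        rw [h2] at h3
        exact hQp.ne_top ((Ideal.eq_top_iff_one Q).2 h3)
      let i : R →+* B := (Subalgebra.inclusion hRB).toRingHom
      have hQ0 : (Q.comap i).IsPrime := Ideal.comap_isPrime i Q
      obtain ⟨b, hb, hbc⟩ := hQ (Q.comap i) hQ0 ⟨e, η, heR, he0, fun h => by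
        refine hunit 1 ?_
        rw [pow_one]
        exact h⟩
      refine ⟨⟨b, hRB hb⟩, fun c => ?_⟩
      obtain ⟨n, hn⟩ := hBm c c.2
      obtain ⟨s, hs, hsQ, u, hu, huv⟩ := hbc _ hn
      refine ⟨⟨s, hRB hs⟩ * (⟨hm e η, hRB heR⟩ : B) ^ n, ?_, ⟨⟨u, hRB hu⟩, ?_⟩⟩
      · intro h
        rcases hQp.mem_or_mem h with h1 | h1
        · exact hsQ h1
        · exact hunit n h1
      · apply Subtype.ext
        change s * hm e η ^ n * (tl τ (c : LP K) - c) = (tl τ b - b) * u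
        rw [map_mul, map_pow, tl_hm, hτη] at huv
        rw [mul_comm _ u, ← huv]
        ring
  · push Not at htr
    have hsurj : Function.Surjective j := fun b => (hfix b).1 (htr b)
    exact IsRegularRing.of_ringEquiv (RingEquiv.ofBijective j.toRingHom ⟨hjinj, hsurj⟩).symm

end stp

/-- **The step.** -/
theorem t_STEP : S_DESC → S_STEP := by
  intro hD k K K' _ _ _ _ _ _ ι p hp τ hτ _ hι R hR hst hQ
  have hft : Algebra.FiniteType k (res ι R) := by
    have hAB : ∀ f, f ∈ res ι R ↔ Ph ι f ∈ R := fun f => Iff.rfl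
    refine ft_inv (rP ι (res ι R) R (fun f h => (hAB f).1 h)) (rP_inj ι _ _ _) ?_ hR.ft
    refine int_inv (rT τ R hst) p hp.pos (rT_per τ R hst hτ) _ fun b hb => ?_
    exact (fix_iff hι (res ι R) R hAB hst b).1 hb
  refine ⟨hft, ?_, ?_, ?_, ?_, ?_⟩
  · intro f hf d
    rw [mem_res] at hf ⊢
    rw [Ph_hm, ← Ph_coeff]
    exact hR.gr _ hf d
  · rw [mem_res, Ph_hm, map_one]
    exact hR.ss
  · intro d x hx
    rw [mem_res, Ph_hm] at hx ⊢
    exact hR.cf d _ hx
  · obtain ⟨d, a, hd, ha, hda⟩ := hR.pos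
    obtain ⟨N, hN⟩ : ∃ N, N = ∏ i ∈ Finset.range p, τ^[i] a := ⟨_, rfl⟩
    have hiter : ∀ i, τ^[i] a ≠ 0 := by
      intro i
      induction i with
      | zero => exact ha
      | succ i ih =>
        rw [Function.iterate_succ_apply']
        exact (map_ne_zero τ).2 ih
    have hN0 : N ≠ 0 := by
      rw [hN]
      exact Finset.prod_ne_zero_iff.2 fun i _ => hiter i
    have hτN : τ N = N := by
      have h1 : τ N = ∏ i ∈ Finset.range p, τ^[i + 1] a := by
        rw [hN, map_prod]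
        refine Finset.prod_congr rfl fun i _ => ?_
        rw [Function.iterate_succ_apply']
      obtain ⟨m, rfl⟩ : ∃ m, p = m + 1 := ⟨p - 1, by have := hp.pos; omega⟩
      rw [h1, Finset.prod_range_succ, hτ, hN, Finset.prod_range_succ']
      rfl
    obtain ⟨y, hy⟩ := (hι N).1 hτN
    refine ⟨p * d, y, Nat.mul_pos hp.pos hd, ?_, ?_⟩
    · intro h
      rw [h, map_zero] at hy
      exact hN0 hy.symm
    · rw [mem_res, Ph_hm, hy, hN]
      have h2 : hm ((p * d : ℕ) : ℤ) (∏ i ∈ Finset.range p, τ^[i] a) =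
          ∏ i ∈ Finset.range p, (tl τ)^[i] (hm (d : ℤ) a) := by
        simp only [tl_iter_hm]
        rw [hm_prod]
        congr 1
        rw [Finset.sum_const, Finset.card_range, nsmul_eq_mul]
        push_cast
        rfl
      rw [h2]
      have hitR : ∀ i, (tl τ)^[i] (hm (d : ℤ) a) ∈ R := by
        intro i
        induction i with
        | zero => exact hda
        | succ i ih =>
          rw [Function.iterate_succ_apply']
          exact hst _ ih
      exact R.prod_mem fun i _ => hitR i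
  · intro e η' he he0 hη
    exact main_rg hD hp hτ hι R hR hst hft hQ e η' he he0 hη

end Pool.Agent.Y929.G
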