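import Pool.Agent.Y223.G.Stm7

/-!
# Project G: tame inertia
-/

set_option autoImplicit false

namespace Pool.Agent.Y929.G

open Pool.Agent.Y223.G

section tame

variable {O : Type} [CommRing O] {𝔓 : Ideal O} {t : O ≃+* O}

/-- the difference operator raises the filtration -/
lemma dlt_pow (h0 : ∀ o, t o - o ∈ 𝔓) (h1 : ∀ o ∈ 𝔓, t o - o ∈ 𝔓 ^ 2) (m : ℕ) :
    ∀ x ∈ 𝔓 ^ m, t x - x ∈ 𝔓 ^ (m + 1) := by
  induction m with
  | zero =>
    intro x _
    rw [zero_add, pow_one]
    exact h0 x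
  | succ m ih =>
    intro x hx
    rw [pow_succ] at hx
    refine Submodule.mul_induction_on hx ?_ ?_
    · intro a ha b hb
      have e : t (a * b) - a * b = (t a - a) * t b + a * (t b - b) := by
        rw [map_mul]
        ring
      rw [e]
      have hb' : t b ∈ 𝔓 := by
        have : t b = (t b - b) + b := by ring
        rw [this]
        exact 𝔓.add_mem (h0 b) hb
      refine Ideal.add_mem _ ?_ ?_
      · rw [pow_succ _ (m + 1)]
        exact Ideal.mul_mem_mul (ih a ha) hb'
      · have e2 : m + 1 + 1 = m + 2 := rfl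
        rw [e2, pow_add]
        exact Ideal.mul_mem_mul ha (h1 b hb)
    · intro a b ha hb
      have e : t (a + b) - (a + b) = (t a - a) + (t b - b) := by
        rw [map_add]
        ring
      rw [e]
      exact Ideal.add_mem _ ha hb

/-- the iterates -/
lemma iter_cong {r : ℕ} (h0 : ∀ o, t o - o ∈ 𝔓) (h1 : ∀ o ∈ 𝔓, t o - o ∈ 𝔓 ^ 2)
    (hr : ∀ o, t o - o ∈ 𝔓 ^ r) (x : O) (k : ℕ) :
    t^[k] x - (x + k * (t x - x)) ∈ 𝔓 ^ (r + 1) := by
  induction k with
  | zero => simp
  | succ k ih =>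
    rw [Function.iterate_succ_apply']
    obtain ⟨e, he⟩ : ∃ e, e = t^[k] x - (x + k * (t x - x)) := ⟨_, rfl⟩
    rw [← he] at ih
    have h2 : t^[k] x = x + k * (t x - x) + e := by
      rw [he]
      ring
    have h3 : t (t^[k] x) - (x + ((k + 1 : ℕ) : O) * (t x - x)) =
        k * (t (t x - x) - (t x - x)) + ((t e - e) + e) := by
      rw [h2, map_add, map_add, map_mul, map_natCast]
      push_cast
      ring
    rw [h3]
    refine Ideal.add_mem _ (Ideal.mul_mem_left _ _ (dlt_pow h0 h1 r _ (hr x)))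
      (Ideal.add_mem _ ?_ ih)
    exact Ideal.pow_le_pow_right (by omega) (dlt_pow h0 h1 (r + 1) e ih)

end tame

/-- **Tame inertia.** -/
theorem t_TAMC : S_TAMC := by
  intro O _ _ _ 𝔓 hmax _ _ t n ht hn h0 h1 o
  obtain ⟨m, i, hi, hmi⟩ := hmax.exists_inv hn
  have hall : ∀ r : ℕ, ∀ x, t x - x ∈ 𝔓 ^ r := by
    intro r
    induction r with
    | zero =>
      intro x
      rw [pow_zero, Ideal.one_eq_top]
      trivial
    | succ r ih =>
      intro x
      have h2 := iter_cong h0 h1 ih x n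
      rw [ht] at h2
      have h3 : (n : O) * (t x - x) ∈ 𝔓 ^ (r + 1) := by
        have e : (n : O) * (t x - x) = -(x - (x + n * (t x - x))) := by ring
        rw [e]
        exact (𝔓 ^ (r + 1)).neg_mem h2
      have hcop : IsCoprime (n : O) (i ^ (r + 1)) :=
        IsCoprime.pow_right ⟨m, 1, by rw [one_mul]; exact hmi⟩
      obtain ⟨a, b, hab⟩ := hcop
      have e : t x - x = a * ((n : O) * (t x - x)) + b * (t x - x) * i ^ (r + 1) := by
        linear_combination (-(t x - x)) * hab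
      rw [e]
      exact Ideal.add_mem _ (Ideal.mul_mem_left _ _ h3)
        (Ideal.mul_mem_left _ _ (Ideal.pow_mem_pow hi (r + 1)))
  have h4 : t o - o ∈ ⨅ r : ℕ, 𝔓 ^ r := by
    rw [Submodule.mem_iInf]
    exact fun r => hall r o
  rw [Ideal.iInf_pow_eq_bot_of_isDomain 𝔓 hmax.ne_top, Ideal.mem_bot] at h4
  exact sub_eq_zero.1 h4

end Pool.Agent.Y929.G
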