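import Pool.Agent.Y223.G.Stm3
import Pool.Agent.Y929.G.Step

/-!
# Project G: assembly of the theorem on Weil restrictions
-/

set_option autoImplicit false

namespace Pool.Agent.Y929.G

open Pool.Agent.Y223.G

section aux

/-- an element outside all but one of a family which generates the unit ideal is a unit of the
valuation ring -/
lemma exists_inv_mem {k Y : Type} [CommRing k] [Field Y] [Algebra k Y] {β : Type} (o : β → k)
    (hspan : Ideal.span (Set.range o) = ⊤) (V : ValuationSubring Y)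
    (hV : ∀ c : k, algebraMap k Y c ∈ V) : ∃ b, (algebraMap k Y (o b))⁻¹ ∈ V := by
  let f : k →+* V := (algebraMap k Y).codRestrict V.toSubring hV
  by_contra hcon
  push Not at hcon
  have h1 : Ideal.span (Set.range o) ≤ (IsLocalRing.maximalIdeal V).comap f := by
    rw [Ideal.span_le]
    rintro _ ⟨b, rfl⟩
    change f (o b) ∈ IsLocalRing.maximalIdeal V
    rw [IsLocalRing.mem_maximalIdeal]
    intro hu
    apply hcon b
    obtain ⟨u, hu⟩ := hu
    have h2 : ((u⁻¹ : Vˣ) : V) * (u : V) = 1 := u.inv_mul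
    have h3 : (((u⁻¹ : Vˣ) : V) : Y) * algebraMap k Y (o b) = 1 := by
      have h4 := congrArg (fun x : V => (x : Y)) h2
      rw [hu] at h4
      exact h4
    have h5 : (algebraMap k Y (o b))⁻¹ = (((u⁻¹ : Vˣ) : V) : Y) :=
      (eq_inv_of_mul_eq_one_left h3).symm
    rw [h5]
    exact ((u⁻¹ : Vˣ) : V).2
  rw [hspan, top_le_iff] at h1
  exact (Ideal.comap_ne_top f (IsLocalRing.maximalIdeal.isMaximal V).ne_top) h1

lemma prod_inv {k K : Type} [CommRing k] [Field K] [Algebra k K] (τ : K ≃ₐ[k] K) {p : ℕ}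
    (hp : 0 < p) (hτ : ∀ x, τ^[p] x = x) (F : K) :
    τ (∏ i : Fin p, τ^[i] F) = ∏ i : Fin p, τ^[i] F := by
  rw [Fin.prod_univ_eq_prod_range (fun i => τ^[i] F) p]
  have h1 : τ (∏ i ∈ Finset.range p, τ^[i] F) = ∏ i ∈ Finset.range p, τ^[i + 1] F := by
    rw [map_prod]
    refine Finset.prod_congr rfl fun i _ => ?_
    rw [Function.iterate_succ_apply']
  obtain ⟨m, rfl⟩ : ∃ m, p = m + 1 := ⟨p - 1, by omega⟩
  rw [h1, Finset.prod_range_succ, hτ, Finset.prod_range_succ']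
  rfl

lemma iter_ne {k K : Type} [CommRing k] [Field K] [Algebra k K] (τ : K ≃ₐ[k] K) {F : K}
    (hF : F ≠ 0) (i : ℕ) : τ^[i] F ≠ 0 := by
  induction i with
  | zero => exact hF
  | succ i ih =>
    rw [Function.iterate_succ_apply']
    exact (map_ne_zero τ).2 ih

lemma iter_div {k K : Type} [CommRing k] [Field K] [Algebra k K] (τ : K ≃ₐ[k] K) (F G : K)
    (i : ℕ) : τ^[i] (G / F) = τ^[i] G / τ^[i] F := by
  induction i with
  | zero => rfl
  | succ i ih =>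
    rw [Function.iterate_succ_apply', ih, map_div₀, ← Function.iterate_succ_apply' τ i G,
      ← Function.iterate_succ_apply' τ i F]

end aux

/-- **Weil restrictions.** -/
theorem t_WEIL : S_ATLAS → S_MODEL → S_HASM → S_RAM → S_GCH → S_GGL1 → S_GGL2 → S_GVAL → S_GFR →
    S_GMO → S_WEIL := by
  intro hATLAS hMODEL hHASM hRAM hGCH hGGL1 hGGL2 hGVAL hGFR hGMO k O L Y K _ _ _ _ _ _ _ _ _ _ _ _
    _ _ _ ι p τ t m z hyp M₀ hM₀ P hP
  classical
  have hp : 0 < p := hyp.pp.pos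
  have hinjk : Function.Injective (algebraMap k K) := hyp.injk
  have hιk : ∀ c : k, ι (algebraMap k Y c) = algebraMap k K c := fun c => ι.commutes c
  have hinjY : Function.Injective (algebraMap k Y) := by
    intro a b hab
    apply hinjk
    rw [← hιk, ← hιk, hab]
  obtain ⟨β, _, _, o, ho, hspan, hb⟩ := hRAM k O K p τ t hyp.toGSet
  choose dd tb 𝔓 l hW hor using hb
  obtain ⟨d, Φ, hd, hΦfin, hΦ, hval⟩ := hGVAL k O L Y K ι p τ t m z hyp
  have hoK : ∀ b, algebraMap k K (o b) ≠ 0 := by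
    intro b h
    apply ho b
    apply hinjk
    rw [h, map_zero]
  have hfinΦ : Finite Φ := hΦfin
  -- the functions
  have hh : ∀ a : Φ × β, ∃ y : Y, ι y = (∏ i : Fin p, τ^[i] (a.1 : K)) * algebraMap k K (o a.2) := by
    intro a
    apply (hyp.fixK _).1
    rw [map_mul, prod_inv τ hp hyp.ord, τ.commutes]
  choose h hιh using hh
  have hprod0 : ∀ a : Φ × β, (∏ i : Fin p, τ^[i] (a.1 : K)) ≠ 0 := fun a =>
    Finset.prod_ne_zero_iff.2 fun i _ => iter_ne τ (hΦ a.1 a.1.2).2 i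
  have hh0 : ∀ a, h a ≠ 0 := by
    intro a h0
    have h1 := hιh a
    rw [h0, map_zero] at h1
    exact mul_ne_zero (hprod0 a) (hoK a.2) h1.symm
  have hquot : ∀ a a' : Φ × β, ι (h a' / h a) =
      (∏ i : Fin p, τ^[i] ((a'.1 : K) / a.1)) *
        (algebraMap k K (o a'.2) / algebraMap k K (o a.2)) := by
    intro a a'
    rw [map_div₀, hιh, hιh, mul_div_mul_comm]
    congr 1
    rw [← Finset.prod_div_distrib]
    refine Finset.prod_congr rfl fun i _ => ?_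
    rw [iter_div]
  -- change of the base
  have hbase : ∀ (b b' : β) (F : K), F ∈ FS k z d → F ≠ 0 →
      hm 0 (algebraMap k K (o b') / algebraMap k K (o b)) ∈ GR O p τ z (o b) (𝔓 b) (l b) d F ∧
      ∀ f ∈ GR O p τ z (o b') (𝔓 b') (l b') d F, ∃ n : ℕ,
        hm 0 (algebraMap k K (o b') / algebraMap k K (o b)) ^ n * f ∈
          GR O p τ z (o b) (𝔓 b) (l b) d F := by
    intro b b' F hF hF0
    by_cases hbb : b' = b
    · subst hbb
      rw [div_self (hoK b'), hm_one]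
      refine ⟨Subalgebra.one_mem _, fun f hf => ⟨0, ?_⟩⟩
      rw [pow_zero, one_mul]
      exact hf
    · exact hGGL2 k O K p hp τ hyp.ord m z (o b) (o b') (hoK b) (hoK b') (𝔓 b) (𝔓 b') (l b) (l b')
        d F hF hF0 (hor b b' hbb)
  -- the atlas
  obtain ⟨ρ, T, _, C, H, hAt⟩ := hATLAS k Y hinjY P M₀ (algebraMap Y Y).fieldRange (Φ × β)
    (fun a => res ι (GR O p τ z (o a.2) (𝔓 a.2) (l a.2) d (a.1 : K))) h
    (fun a => hGCH k O L Y K ι p τ t m z hyp (o a.2) (dd a.2) (tb a.2) (𝔓 a.2) (l a.2) (ho a.2)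
      (hW a.2) d a.1 hd (hΦ a.1 a.1.2).1 (hΦ a.1 a.1.2).2)
    hh0 (fun a => ⟨h a, rfl⟩) (fun _ _ x _ => ⟨x, rfl⟩)
    (by
      intro a a'
      rw [mem_res, Ph_hm, hquot]
      have h1 := (hGGL1 k O K p hp τ hyp.ord m z (o a.2) (𝔓 a.2) (l a.2) d a.1 a'.1
        (hΦ a.1 a.1.2).1 (hΦ a'.1 a'.1.2).1 (hΦ a.1 a.1.2).2 (hΦ a'.1 a'.1.2).2).1
      have h2 := (hbase a.2 a'.2 a.1 (hΦ a.1 a.1.2).1 (hΦ a.1 a.1.2).2).1
      have h3 := Subalgebra.mul_mem _ h1 h2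
      rw [hm_mul, add_zero] at h3
      exact h3)
    (by
      intro a a' f hf
      rw [mem_res] at hf
      obtain ⟨n, hn⟩ := (hGGL1 k O K p hp τ hyp.ord m z (o a'.2) (𝔓 a'.2) (l a'.2) d a.1 a'.1
        (hΦ a.1 a.1.2).1 (hΦ a'.1 a'.1.2).1 (hΦ a.1 a.1.2).2 (hΦ a'.1 a'.1.2).2).2 _ hf
      have h1 := (hGGL1 k O K p hp τ hyp.ord m z (o a.2) (𝔓 a.2) (l a.2) d a.1 a'.1
        (hΦ a.1 a.1.2).1 (hΦ a'.1 a'.1.2).1 (hΦ a.1 a.1.2).2 (hΦ a'.1 a'.1.2).2).1
      obtain ⟨h2, h3⟩ := hbase a.2 a'.2 a.1 (hΦ a.1 a.1.2).1 (hΦ a.1 a.1.2).2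
      obtain ⟨n', hn'⟩ := h3 _ hn
      refine ⟨n + n', ?_⟩
      rw [mem_res, map_mul, map_pow, Ph_hm, hquot]
      have h4 : hm (0 : ℤ) ((∏ i : Fin p, τ^[i] ((a'.1 : K) / a.1)) *
          (algebraMap k K (o a'.2) / algebraMap k K (o a.2))) =
          hm 0 (∏ i : Fin p, τ^[i] ((a'.1 : K) / a.1)) *
            hm 0 (algebraMap k K (o a'.2) / algebraMap k K (o a.2)) := by
        rw [hm_mul, add_zero]
      rw [h4]
      have h5 := Subalgebra.mul_mem _ (Subalgebra.mul_mem _ (Subalgebra.pow_mem _ h1 n')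
        (Subalgebra.pow_mem _ h2 n)) hn'
      convert h5 using 1
      ring)
    (by
      intro V hV
      obtain ⟨F, hF, hFV⟩ := hval V hV
      obtain ⟨b, hbV⟩ := exists_inv_mem o hspan V hV
      exact ⟨(⟨F, hF⟩, b), fun x hx => hFV (o b) (ho b) hbV (𝔓 b) (l b) x hx⟩)
    (fun a x _ => (hGFR k O L Y K ι p τ t m z hyp (o a.2) (𝔓 a.2) (l a.2) (ho a.2) (hW a.2).ne
      d a.1 hd (hΦ a.1 a.1.2).1 (hΦ a.1 a.1.2).2).1 x)
    (fun _ a => (hGFR k O L Y K ι p τ t m z hyp (o a.2) (𝔓 a.2) (l a.2) (ho a.2) (hW a.2).ne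
      d a.1 hd (hΦ a.1 a.1.2).1 (hΦ a.1 a.1.2).2).2)
    (fun hPP => ⟨d, hd, fun a => hGMO k O L Y K ι p τ t m z hyp M₀ (hP hPP) (o a.2) (𝔓 a.2)
      (l a.2) (ho a.2) d a.1 hd (hΦ a.1 a.1.2).1 (hΦ a.1 a.1.2).2 (h a) (hιh a)⟩)
  obtain ⟨I, _, zz, J, hmod⟩ := hMODEL k Y hinjY P M₀ hM₀ (algebraMap Y Y).fieldRange
    (fun _ x _ => ⟨x, rfl⟩) ρ T C H hAt
  exact hHASM k Y Y hinjY P M₀ I zz J hmod

end Pool.Agent.Y929.G
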